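import Pool.Agent.X250.Sph.Edge

/-!
# The gamma-vector and the Charney-Davis quantities of the links of the edges

`HSph d G`: the flag complex of the graph `G` (its faces are the cliques of `G`) is a real homology
manifold with the real homology of the `(d - 1)`-sphere.  `IsGam d G γ`: `γ` is its gamma-vector.
`lk G F` is the set of the common neighbours of `F`: the link of the face `F` is the flag complex of the
graph induced on `lk G F`.  `facesOff G 2 D` is the set of the edges which are not contained in `D`.

`AM n` is the class of graphs of the starting library (`Pool.Agent.TH652`): it contains the order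
complexes of the graded posets of length `n` which are Gorenstein* over `F_2` and is closed under full
subcomplexes, edge subdivisions, joins, gluing along full subcomplexes of the class `n - 2`, under
`n → n + 1`, and, for even `n`, under passing from the vertex links to the complex.

We do not assume anything on the flag homology sphere itself, but only that the links of the faces of
codimension `2 j` are in the class `AM (2 j)`.  For these links the Charney-Davis conjecture
`γ_j ≥ 0` is known.  We obtain lower bounds for the Charney-Davis quantities of the links of codimension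
`2 j + 2` (for the sphere itself if `d = 2 j + 2`).
-/

set_option autoImplicit false

namespace Pool.Agent.Results.MP_19e880_co.EdgeLinks

open Pool.Agent.X250.Sph Pool.Agent.TH652.Above
open Pool.Agent.W907.SM (lk)

/-- (1) Let `2 j + 2 ≤ d` and let the flag complex of `G` be a homology `(d - 1)`-sphere with gamma-vector
`γ` such that the links of the faces with `d - 2 j` vertices are in the class `AM (2 j)`.  Put
`A_j = ∑ (i choose j) 2^(d - 2 i) γ_i`.  Then `A_{j+1} + (d - 2 j) (d - 2 j - 1) A_j ≥ 0`.
(2) Let the flag complex of `G` be a homology `(2 m + 1)`-sphere with gamma-vector `γ`, such that the links of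
the edges, which are homology `(2 m - 1)`-spheres with gamma-vectors `g e`, are in the class `AM (2 m)`.  Let
`D` be a set of vertices which contains no face with `m + 2` vertices.  Then
`γ_{m+1} ≥ - 2 ∑ g e m`, the sum over the edges `e` which are not contained in `D`.  So the Charney-Davis
inequality `γ_{m+1} ≥ 0` holds if `g e m = 0` for all these edges.  Moreover
`(2 m + 3) γ_{m+1} + 8 γ_m ≥ 0`. -/
theorem result :
    (∀ (d j : ℕ) (V : Type) [Fintype V] [LinearOrder V] (G : SimpleGraph V) (γ : ℕ → ℤ),
      2 * j + 2 ≤ d → HSph d G → IsGam d G γ →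
      (∀ T : Finset V, G.IsClique (T : Set V) → T.card = d - 2 * j → AM (2 * j) (G.induce (lk G T))) →
      0 ≤ (∑ i ∈ Finset.range (d / 2 + 1), (i.choose (j + 1) : ℚ) * 2 ^ (d - 2 * i) * γ i) +
        ((d : ℚ) - 2 * j) * (d - 2 * j - 1) *
          ∑ i ∈ Finset.range (d / 2 + 1), (i.choose j : ℚ) * 2 ^ (d - 2 * i) * γ i) ∧
    (∀ (m : ℕ) (V : Type) [Fintype V] [LinearOrder V] (G : SimpleGraph V) (γ : ℕ → ℤ) (D : Set V)
      (g : Finset V → ℕ → ℤ) [∀ e : Finset V, Fintype ↥(lk G e)],
      HSph (2 * m + 2) G → IsGam (2 * m + 2) G γ →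
      (∀ e : Finset V, G.IsClique (e : Set V) → e.card = 2 →
        AM (2 * m) (G.induce (lk G e)) ∧ IsGam (2 * m) (G.induce (lk G e)) (g e)) →
      (∀ T : Finset V, G.IsClique (T : Set V) → (T : Set V) ⊆ D → T.card < m + 2) →
      - 2 * ∑ e ∈ facesOff G 2 D, g e m ≤ γ (m + 1) ∧
      ((∀ e ∈ facesOff G 2 D, g e m = 0) → 0 ≤ γ (m + 1)) ∧
      0 ≤ (2 * m + 3) * γ (m + 1) + 8 * γ m) := by
  refine ⟨fun d j V _ _ G γ hd hS hγ hL => taylor_step hd (fun T hT hk => P_of_AM (hL T hT hk)) hS hγ, ?_⟩
  intro m V _ _ G γ D g _ hS hγ hL hD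
  have hP : FaceP m 2 G := fun T hT hk => P_of_AM (hL T hT hk).1
  have h1 := edge_gamma hP hS D (lv_small hD) hγ
  have h2 : ∑ e ∈ facesOff G 2 D, 4 ^ m * chiLk G m e = ((∑ e ∈ facesOff G 2 D, g e m : ℤ) : ℚ) := by
    push_cast
    refine Finset.sum_congr rfl fun e he => ?_
    obtain ⟨h3, h4, _⟩ := mem_facesOff.1 he
    exact chiLk_gam hS h3 h4 (hL e h3 h4).2
  rw [h2] at h1
  have h3 : - 2 * ∑ e ∈ facesOff G 2 D, g e m ≤ γ (m + 1) := by
    have h4 : ((- 2 * ∑ e ∈ facesOff G 2 D, g e m : ℤ) : ℚ) ≤ (γ (m + 1) : ℚ) := by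
      rw [Int.cast_mul, Int.cast_neg]
      push_cast at h1 ⊢
      linarith
    exact_mod_cast h4
  refine ⟨h3, fun h0 => ?_, ?_⟩
  · rw [Finset.sum_eq_zero h0, mul_zero] at h3
    exact h3
  · have h4 := edge_gamma hP hS ∅ (lv_none _ (by omega)) hγ
    rw [edge_sum hS hγ] at h4
    have h5 : (0 : ℚ) ≤ (((2 * m + 3) * γ (m + 1) + 8 * γ m : ℤ) : ℚ) := by
      push_cast
      linarith
    exact_mod_cast h5

end Pool.Agent.Results.MP_19e880_co.EdgeLinks
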