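import Pool.Agent.X250.Sph.Multi

/-!
# Lower bounds for gamma-vectors by the full subcomplexes of the links, in the class `AM`

`HSph d G`: the flag complex of the graph `G` (its faces are the cliques of `G`) is a real homology
manifold with the real homology of the `(d - 1)`-sphere.  `IsGam d G γ`: `γ` is its gamma-vector.
`AM d G` is the class of graphs of the starting library (`Pool.Agent.TH652`); it contains the order
complexes of the graded posets of length `d` which are Gorenstein* over `F_2`, and is closed under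
full subcomplexes, stellar subdivision of edges, joins (the numbers `d` add up), gluing along full
subcomplexes of the class `d - 2`, under `d → d + 1`, and, for even `d`, under passing from the vertex
links to the complex.

`L2Van G i`: there are no nonzero `ℓ²` harmonic `i`-chains on the Davis complex of the right-angled
Coxeter group `W G`, that is, the `i`-th `ℓ²`-Betti number of `W G` is zero.  `lk G F` is the set of
the common neighbours of `F`.  `chiW G` is the sum of the `(-1/2)^|σ|` over the cliques `σ`, the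
rational Euler characteristic of `W G`.

The proof: for full subcomplexes `A ⊆ B` of a link the map from the middle `ℓ²`-homology of `W_A` to
that of `W_B` is injective, since the relative homology vanishes one degree above the middle.  This
is carried out with the Betti numbers of the finite `W G`-sets of large injectivity radius.
-/

set_option autoImplicit false

namespace Pool.Agent.Results.MP_19e880_co.FullSubcomplexBound

open Pool.Agent.X250.Sph Pool.Agent.TH652.Above
open Pool.Agent.W907.SG (L2Van chiW)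
open Pool.Agent.W907.SM (lk)

theorem bound {d : ℕ} {V : Type} [Fintype V] [LinearOrder V] {G : SimpleGraph V} {γ : ℕ → ℤ}
    (hS : HSph d G) (hA : AM d G) (hγ : IsGam d G γ) {j : ℕ} (hj : 2 * j ≤ d)
    {𝓕 : Finset (Finset V)} {A : Finset V → Finset V}
    (hF : ∀ F ∈ 𝓕, G.IsClique (F : Set V) ∧ F.card = d - 2 * j)
    (hsub : ∀ F ∈ 𝓕, (A F : Set V) ⊆ lk G F)
    (hL : ∀ F ∈ 𝓕, ∀ i, i < j → Even (i + j) → L2Van (G.induce (A F : Set V)) i) :
    ∑ F ∈ 𝓕, 4 ^ j * ((-1 : ℚ) ^ j * chiW (G.induce (A F : Set V))) ≤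
      ∑ i ∈ Finset.range (d / 2 + 1), (i.choose j : ℚ) * 2 ^ (d - 2 * i) * γ i :=
  gamma_bound hS (P_of_AM hA) hγ j hj 𝓕 A hF hsub fun F h i hi he => LV_of (hL F h i hi he)

/-- Let `γ` be the gamma-vector of a flag homology `(d - 1)`-sphere in the class `AM d`, and `j ≤ d/2`.
(1) Choose for some of the faces `F` with `d - 2 j` vertices a full subcomplex `A F` of the link of
`F` such that the `ℓ²`-Betti numbers of the right-angled Coxeter group of `A F` vanish in the degrees
`i < j` of the parity of `j`.  Then `∑ᵢ (i choose j) 2^(d - 2 i) γᵢ` is at least the sum of the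
`(-4)^j χ(W_(A F))`.
(2) Choose for some of the faces `F` with `d - 2 j` vertices `j` discrete full subcomplexes `K F k` of
the link of `F`, each with at least two vertices, which span their join.  Then
`∑ᵢ (i choose j) 2^(d - 2 i) γᵢ` is at least the sum over these `F` of the products of the numbers
`2 |K F k| - 4`.
(3) If `∑ᵢ (i choose j) 2^(d - 2 i) γᵢ` is zero (for `d = 2 j` this number is `γ_j`), then for every
face `F` with `d - 2 j` vertices and every full subcomplex `A` of its link such that the
`ℓ²`-Betti numbers of the Coxeter group of `A` vanish in all degrees except possibly `j`, they vanish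
in all degrees. -/
theorem result (d : ℕ) {V : Type} [Fintype V] [LinearOrder V] (G : SimpleGraph V) (γ : ℕ → ℤ)
    (hS : HSph d G) (hA : AM d G) (hγ : IsGam d G γ) (j : ℕ) (hj : 2 * j ≤ d) :
    (∀ (𝓕 : Finset (Finset V)) (A : Finset V → Finset V),
      (∀ F ∈ 𝓕, G.IsClique (F : Set V) ∧ F.card = d - 2 * j) →
      (∀ F ∈ 𝓕, (A F : Set V) ⊆ lk G F) →
      (∀ F ∈ 𝓕, ∀ i, i < j → Even (i + j) → L2Van (G.induce (A F : Set V)) i) →
      ∑ F ∈ 𝓕, 4 ^ j * ((-1 : ℚ) ^ j * chiW (G.induce (A F : Set V))) ≤
        ∑ i ∈ Finset.range (d / 2 + 1), (i.choose j : ℚ) * 2 ^ (d - 2 * i) * γ i) ∧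
    (∀ (𝓕 : Finset (Finset V)) (K : Finset V → Fin j → Finset V),
      (∀ F ∈ 𝓕, G.IsClique (F : Set V) ∧ F.card = d - 2 * j) →
      (∀ F ∈ 𝓕, ∀ k, (K F k : Set V) ⊆ lk G F) →
      (∀ F ∈ 𝓕, IsMultipartite G (K F)) →
      ∑ F ∈ 𝓕, ∏ k, (2 * ((K F k).card : ℤ) - 4) ≤
        ∑ i ∈ Finset.range (d / 2 + 1), (i.choose j : ℤ) * 2 ^ (d - 2 * i) * γ i) ∧
    (∑ i ∈ Finset.range (d / 2 + 1), (i.choose j : ℤ) * 2 ^ (d - 2 * i) * γ i = 0 →
      ∀ F : Finset V, G.IsClique (F : Set V) → F.card = d - 2 * j →
      ∀ A : Finset V, (A : Set V) ⊆ lk G F → (∀ i, i ≠ j → L2Van (G.induce (A : Set V)) i) →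
      ∀ i, L2Van (G.induce (A : Set V)) i) := by
  classical
  refine ⟨fun 𝓕 A hF hsub hL => bound hS hA hγ hj hF hsub hL, ?_, ?_⟩
  · intro 𝓕 K hF hsub hK
    have h1 := bound hS hA hγ hj (𝓕 := 𝓕) (A := fun F => Finset.univ.biUnion (K F)) hF
      (fun F h x hx => by
        rw [Finset.mem_coe, Finset.mem_biUnion] at hx
        obtain ⟨k, _, hx⟩ := hx
        exact hsub F h k hx)
      (fun F h i hi _ => (hK F h).lv Finset.univ i (by
        rw [Finset.card_univ, Fintype.card_fin]
        exact hi) _ _)
    have h2 : ∀ F ∈ 𝓕, 4 ^ j * ((-1 : ℚ) ^ j *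
        chiW (G.induce ((Finset.univ.biUnion (K F) : Finset V) : Set V))) =
        ((∏ k, (2 * ((K F k).card : ℤ) - 4) : ℤ) : ℚ) := by
      intro F h
      rw [← lam_coe, (hK F h).lam Finset.univ]
      push_cast
      have h3 : (4 : ℚ) ^ j = ∏ _k : Fin j, (4 : ℚ) := by simp
      have h4 : (-1 : ℚ) ^ j = ∏ _k : Fin j, (-1 : ℚ) := by simp
      rw [h3, h4, ← Finset.prod_mul_distrib, ← Finset.prod_mul_distrib]
      refine Finset.prod_congr rfl fun k _ => ?_
      ring
    rw [Finset.sum_congr rfl h2] at h1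
    have h5 : (∑ i ∈ Finset.range (d / 2 + 1), (i.choose j : ℚ) * 2 ^ (d - 2 * i) * γ i) =
        ((∑ i ∈ Finset.range (d / 2 + 1), (i.choose j : ℤ) * 2 ^ (d - 2 * i) * γ i : ℤ) : ℚ) := by
      push_cast
      rfl
    rw [h5, ← Int.cast_sum] at h1
    exact_mod_cast h1
  · intro h0 F hF hc A hsub hL
    have h1 := bound hS hA hγ hj (𝓕 := {F}) (A := fun _ => A)
      (fun F' h => by rw [Finset.mem_singleton.1 h]; exact ⟨hF, hc⟩)
      (fun F' h => by rw [Finset.mem_singleton.1 h]; exact hsub)
      (fun F' _ i hi _ => hL i (by omega))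
    have h5 : (∑ i ∈ Finset.range (d / 2 + 1), (i.choose j : ℚ) * 2 ^ (d - 2 * i) * γ i) = 0 := by
      exact_mod_cast h0
    rw [h5, Finset.sum_singleton] at h1
    have h2 := chi_sign (m := j) (G.induce (A : Set V)) hL
    have h3 : (-1 : ℚ) ^ j * chiW (G.induce (A : Set V)) = 0 := by
      refine le_antisymm ?_ h2
      have h4 : (0 : ℚ) < 4 ^ j := by positivity
      by_contra hcon
      push Not at hcon
      have := mul_pos h4 hcon
      linarith
    have h4 : chiW (G.induce (A : Set V)) = 0 :=
      (mul_eq_zero.1 h3).resolve_left (pow_ne_zero _ (by norm_num))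
    exact (Pool.Agent.W907.SM.l2eul _ _ j hL).2 h4

end Pool.Agent.Results.MP_19e880_co.FullSubcomplexBound
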