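import Pool.Agent.X250.Sph.Taylor

/-!
# The gamma-vectors of the flag homology spheres of the class `AM`

`HSph d G`: the flag complex of the graph `G` (its faces are the cliques of `G`) is a real homology
manifold with the real homology of the `(d - 1)`-sphere.  `IsGam d G γ`: `γ` is its gamma-vector.

`AM d G` is the class of graphs of the starting library (`Pool.Agent.TH652`).  It contains the order
complexes of the graded posets of length `d` which are Gorenstein* over `F_2` (for example all
barycentric subdivisions of triangulated spheres), and is closed under full subcomplexes, stellar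
subdivision of edges, joins (the numbers `d` add up), gluing along full subcomplexes of the class
`d - 2`, under `d → d + 1`, and, for even `d`, under passing from the vertex links to the complex.

`L2Van G i`: there are no nonzero `ℓ²` harmonic `i`-chains on the Davis complex of the right-angled
Coxeter group `W G`, that is, the `i`-th `ℓ²`-Betti number of `W G` is zero.  `lk G F` is the set of
the common neighbours of `F`: the link of `F` is the flag complex of the graph induced on `lk G F`.
-/

set_option autoImplicit false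

namespace Pool.Agent.Results.MP_19e880_co.LinkClosedClass

open Pool.Agent.X250.Sph Pool.Agent.TH652.Above
open Pool.Agent.W907.SG (L2Van chiW)
open Pool.Agent.W907.SM (lk)
open Pool.Agent.W497.FS (cl lam lkF)

open scoped Classical in
/-- the number of the faces `F` with `r` vertices such that the right-angled Coxeter group of the
link of `F` has a nonzero `ℓ²`-Betti number -/
noncomputable def numNonzero {V : Type} [Fintype V] [LinearOrder V] (G : SimpleGraph V) (r : ℕ) : ℕ :=
  ((Finset.univ : Finset (Finset V)).filter fun F : Finset V =>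
    G.IsClique (F : Set V) ∧ F.card = r ∧ ∃ i, ¬ L2Van (G.induce (lk G F)) i).card

open scoped Classical in
theorem gap_sum {d : ℕ} {V : Type} [Fintype V] [LinearOrder V] {G : SimpleGraph V}
    (hS : HSph d G) (hP : P d G) (j : ℕ) (hj : 2 * j ≤ d) :
    (numNonzero G (d - 2 * j) : ℚ) ≤
      ∑ F ∈ (cl G Finset.univ).filter (fun F => F.card = d - 2 * j),
        4 ^ j * ((-1) ^ j * lam G (lkF G Finset.univ F)) ∧
    (∑ F ∈ (cl G Finset.univ).filter (fun F => F.card = d - 2 * j),
        4 ^ j * ((-1) ^ j * lam G (lkF G Finset.univ F)) = 0 ↔ numNonzero G (d - 2 * j) = 0) := by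
  have key : ∀ F ∈ (cl G Finset.univ).filter (fun F => F.card = d - 2 * j),
      (if ∃ i, ¬ L2Van (G.induce (lk G F)) i then (1 : ℚ) else 0) ≤
        4 ^ j * ((-1) ^ j * lam G (lkF G Finset.univ F)) ∧
      (4 ^ j * ((-1) ^ j * lam G (lkF G Finset.univ F)) = 0 ↔
        ¬ ∃ i, ¬ L2Van (G.induce (lk G F)) i) := by
    intro F hF
    obtain ⟨h1, h2⟩ := Finset.mem_filter.1 hF
    obtain ⟨h3, h4, h5⟩ := gap_lk hS hP F (mem_cl_univ.1 h1) j (by omega)
    rw [lam_lk]
    refine ⟨?_, ?_⟩
    · split_ifs with h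
      · exact h5 (by push Not; exact h)
      · positivity
    · rw [mul_eq_zero, or_iff_right (pow_ne_zero _ (by norm_num)), mul_eq_zero,
        or_iff_right (pow_ne_zero _ (by norm_num)), ← h4]
      push Not
      exact Iff.rfl
  have hcard : (numNonzero G (d - 2 * j) : ℚ) =
      ∑ F ∈ (cl G Finset.univ).filter (fun F => F.card = d - 2 * j),
        (if ∃ i, ¬ L2Van (G.induce (lk G F)) i then (1 : ℚ) else 0) := by
    rw [← Finset.sum_filter, Finset.sum_const, nsmul_eq_mul, mul_one, numNonzero]
    congr 2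
    ext F
    simp only [Finset.mem_filter, Finset.mem_univ, true_and, mem_cl_univ, and_assoc]
  refine ⟨?_, ?_⟩
  · rw [hcard]
    exact Finset.sum_le_sum fun F hF => (key F hF).1
  · rw [Finset.sum_eq_zero_iff_of_nonneg fun F hF => le_trans (by split_ifs <;> norm_num) (key F hF).1]
    rw [numNonzero, Finset.card_eq_zero, Finset.filter_eq_empty_iff]
    constructor
    · rintro h F - ⟨h1, h2, h3⟩
      have hF : F ∈ (cl G Finset.univ).filter (fun F => F.card = d - 2 * j) :=
        Finset.mem_filter.2 ⟨mem_cl_univ.2 h1, h2⟩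
      exact (key F hF).2.1 (h F hF) h3
    · intro h F hF
      obtain ⟨h1, h2⟩ := Finset.mem_filter.1 hF
      exact (key F hF).2.2 fun h3 => h (Finset.mem_univ F) ⟨mem_cl_univ.1 h1, h2, h3⟩

/-- Let `γ` be the gamma-vector of a flag homology `(d - 1)`-sphere.
(1) In the class `AM d`, for every `j ≤ d / 2` the `j`-th Taylor coefficient at `1/4` of the
polynomial `∑ γᵢ s^i` is nonnegative; more precisely `∑ᵢ (i choose j) 2^(d - 2 i) γᵢ` is at least the
number of the faces `F` with `d - 2 j` vertices for which the right-angled Coxeter group of the link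
of `F` has a nonzero `ℓ²`-Betti number, and it is zero if and only if there is no such face.
(2) In particular the last coefficient `γ_⌊d/2⌋` is nonnegative.  If `d` is odd then `2 γ_⌊d/2⌋` is
at least the number of the vertices `v` for which the Coxeter group of the link of `v` has a nonzero
`ℓ²`-Betti number, and it is zero if and only if there is no such vertex.
(3) In the wider class `AQ (2 m)` one has `γ_m ≥ 0`, and `γ_m = 0` if and only if all `ℓ²`-Betti
numbers of `W G` are zero. -/
theorem result :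
    (∀ (d : ℕ) {V : Type} [Fintype V] [LinearOrder V] (G : SimpleGraph V) (γ : ℕ → ℤ),
      HSph d G → AM d G → IsGam d G γ → ∀ j : ℕ, 2 * j ≤ d →
        (numNonzero G (d - 2 * j) : ℤ) ≤
          ∑ i ∈ Finset.range (d / 2 + 1), (i.choose j : ℤ) * 2 ^ (d - 2 * i) * γ i ∧
        (∑ i ∈ Finset.range (d / 2 + 1), (i.choose j : ℤ) * 2 ^ (d - 2 * i) * γ i = 0 ↔
          numNonzero G (d - 2 * j) = 0)) ∧
    (∀ (d : ℕ) {V : Type} [Fintype V] [LinearOrder V] (G : SimpleGraph V) (γ : ℕ → ℤ),
      HSph d G → AM d G → IsGam d G γ → 0 ≤ γ (d / 2) ∧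
        (Odd d → (numNonzero G 1 : ℤ) ≤ 2 * γ (d / 2) ∧ (γ (d / 2) = 0 ↔ numNonzero G 1 = 0))) ∧
    (∀ (m : ℕ) {V : Type} [Fintype V] [LinearOrder V] (G : SimpleGraph V) (γ : ℕ → ℤ),
      HSph (2 * m) G → AQ (2 * m) G → IsGam (2 * m) G γ →
        0 ≤ γ m ∧ (γ m = 0 ↔ ∀ i, L2Van G i)) := by
  classical
  have h1 : ∀ (d : ℕ) {V : Type} [Fintype V] [LinearOrder V] (G : SimpleGraph V) (γ : ℕ → ℤ),
      HSph d G → AM d G → IsGam d G γ → ∀ j : ℕ, 2 * j ≤ d →
        (numNonzero G (d - 2 * j) : ℤ) ≤
          ∑ i ∈ Finset.range (d / 2 + 1), (i.choose j : ℤ) * 2 ^ (d - 2 * i) * γ i ∧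
        (∑ i ∈ Finset.range (d / 2 + 1), (i.choose j : ℤ) * 2 ^ (d - 2 * i) * γ i = 0 ↔
          numNonzero G (d - 2 * j) = 0) := by
    intro d V _ _ G γ hS hA hγ j hj
    obtain ⟨h2, h3⟩ := gap_sum hS (P_of_AM hA) j hj
    rw [taylor (fun σ hσ => card_le_of_hSph hS σ (mem_cl_univ.1 hσ)) hγ j hj] at h2 h3
    have h4 : (∑ i ∈ Finset.range (d / 2 + 1), (i.choose j : ℚ) * 2 ^ (d - 2 * i) * γ i) =
        ((∑ i ∈ Finset.range (d / 2 + 1), (i.choose j : ℤ) * 2 ^ (d - 2 * i) * γ i : ℤ) : ℚ) := by
      push_cast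
      rfl
    rw [h4] at h2 h3
    exact ⟨by exact_mod_cast h2, by rw [← h3]; norm_cast⟩
  refine ⟨h1, ?_, ?_⟩
  · intro d V _ _ G γ hS hA hγ
    obtain ⟨h2, h3⟩ := h1 d G γ hS hA hγ (d / 2) (by omega)
    have h4 : ∑ i ∈ Finset.range (d / 2 + 1), (i.choose (d / 2) : ℤ) * 2 ^ (d - 2 * i) * γ i =
        2 ^ (d - 2 * (d / 2)) * γ (d / 2) := by
      rw [Finset.sum_range_succ, Finset.sum_eq_zero, zero_add, Nat.choose_self, Nat.cast_one, one_mul]
      intro i hi
      rw [Nat.choose_eq_zero_of_lt (Finset.mem_range.1 hi)]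
      simp
    rw [h4] at h2 h3
    refine ⟨?_, ?_⟩
    · have h5 : (0 : ℤ) ≤ 2 ^ (d - 2 * (d / 2)) * γ (d / 2) := le_trans (by positivity) h2
      exact nonneg_of_mul_nonneg_right h5 (by positivity)
    · rintro ⟨k, hk⟩
      have h5 : d - 2 * (d / 2) = 1 := by omega
      rw [h5, pow_one] at h2 h3
      refine ⟨h2, ?_⟩
      rw [← h3]
      constructor
      · intro h; rw [h, mul_zero]
      · intro h; linarith
  · intro m V _ _ G γ hS hA hγ
    have h2 := taylor (fun σ hσ => card_le_of_hSph hS σ (mem_cl_univ.1 hσ)) hγ m le_rfl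
    have h3 : ∀ i, i ≠ m → L2Van G i := fun i hi => singer_AQ hS hA i (by omega)
    obtain ⟨h4, h5, -⟩ := gap_of hS h3
    have h6 : (cl G Finset.univ).filter (fun F => F.card = 2 * m - 2 * m) = {∅} := by
      ext F
      rw [Finset.mem_filter, Nat.sub_self, Finset.card_eq_zero, Finset.mem_singleton]
      exact ⟨fun h => h.2, fun h => ⟨by rw [h]; exact Pool.Agent.W497.FS.empty_mem_cl, h⟩⟩
    have h7 : ∑ i ∈ Finset.range (2 * m / 2 + 1), (i.choose m : ℚ) * 2 ^ (2 * m - 2 * i) * γ i =
        γ m := by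
      rw [Nat.mul_div_cancel_left m two_pos, Finset.sum_range_succ, Finset.sum_eq_zero, zero_add,
        Nat.choose_self, Nat.sub_self]
      · simp
      · intro i hi
        rw [Nat.choose_eq_zero_of_lt (Finset.mem_range.1 hi)]
        simp
    rw [h6, Finset.sum_singleton, h7, lam_lk, chiW_congr lk_empty, chiW_univ] at h2
    have h8 : (0 : ℚ) ≤ γ m := by
      rw [← h2]
      positivity
    refine ⟨by exact_mod_cast h8, ?_⟩
    rw [h5]
    have h9 : (γ m = 0) ↔ ((γ m : ℚ) = 0) := by norm_cast
    rw [h9, ← h2, mul_eq_zero, or_iff_right (pow_ne_zero _ (by norm_num)), mul_eq_zero,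
      or_iff_right (pow_ne_zero _ (by norm_num))]

end Pool.Agent.Results.MP_19e880_co.LinkClosedClass
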