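import Pool.Agent.X250.Sph.Small
import Pool.Agent.X250.Sph.Edge

/-!
# Lower bounds for gamma-numbers by the homology of descending links

Let `L` be the flag complex of the finite graph `G`, and suppose that `L` is a real homology `(d-1)`-sphere with
gamma-vector `γ`.  The question is whether all `γ_i` are nonnegative.  For `d = 2 m + 2` the top number `γ_{m+1}` is
`4^(m+1)` times the Charney-Davis quantity `(-1)^(m+1) χ(W G)`.

We assume that the links of the faces with `d - 2 m` vertices, which are of dimension `2 m - 1`, are in the class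
`AM (2 m)`; for `d = 2 m + 2` these are the links of the edges.  For each face `F` with `d - 2 m - 2` vertices choose a
*slope* of its link: a finite set `X` with involutions `a v` for the vertices `v` of the link, commuting for adjacent
vertices, and with directions of the edges from `x` to `a v x`, such that opposite edges of squares are parallel.
Then the number `∑ (i choose (m+1)) 2^(d - 2 i) γ_i` (that is `γ_{m+1}` if `d = 2 m + 2`) is at least
`- 2 · 4^(m+1)` times the sum over the faces `F` of the average over `x` of the dimension of the reduced real homology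
of the descending link (the full subcomplex of the link of `F` spanned by `down x`) in the degree `m + 1`; the same
holds with the degree `m - 1`.

For the slope on the set of all subsets of the vertices of the link one obtains the average of the Betti numbers of
all full subcomplexes.
-/

set_option autoImplicit false

namespace Pool.Agent.Results.MP_19e880_co.MorseGamma

open Pool.Agent.W907.SG Pool.Agent.W907.SM Pool.Agent.TH652.Above Pool.Agent.X250.Sph
open Pool.Agent.TH652.Dual (triv)
open Pool.Agent.W497.FS (cl lkF lam)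

open Classical in
/-- the faces with `r` vertices -/
noncomputable def faces {V : Type} [Fintype V] (G : SimpleGraph V) (r : ℕ) : Finset (Finset V) :=
  Finset.univ.filter fun T : Finset V => G.IsClique (T : Set V) ∧ T.card = r

/-- the average over `x` of the dimension of the reduced real homology of `L[down x]` in the degree `i - 1` -/
noncomputable def average {V : Type} [Fintype V] [LinearOrder V] {G : SimpleGraph V} {X : Type} [Fintype X]
    (s : Slope G X) (i : ℕ) : ℝ := (∑ x, (beta G (triv V) (s.down x) ∅ i : ℝ)) / Fintype.card X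

section

variable {V : Type} [Fintype V] [LinearOrder V] {G : SimpleGraph V}

omit [LinearOrder V] in
theorem mem_faces {r : ℕ} {T : Finset V} : T ∈ faces G r ↔ G.IsClique (T : Set V) ∧ T.card = r := by
  simp only [faces, Finset.mem_filter, Finset.mem_univ, true_and]

open Classical in
/-- the inequality from lower bounds for the links -/
theorem sum_bound {m d : ℕ} {γ : ℕ → ℤ} (hd : 2 * m + 2 ≤ d) (hS : HSph d G) (hγ : IsGam d G γ) (c : Finset V → ℝ)
    (hc : ∀ F ∈ faces G (d - 2 * m - 2), 0 ≤ (-1 : ℝ) ^ (m + 1) * (chiW (G.induce (lk G F)) : ℝ) + 2 * c F) :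
    -(2 * 4 ^ (m + 1) * ∑ F ∈ faces G (d - 2 * m - 2), c F) ≤
      ∑ i ∈ Finset.range (d / 2 + 1), (i.choose (m + 1) : ℝ) * 2 ^ (d - 2 * i) * γ i := by
  have h1 := taylor (fun σ hσ => card_le_of_hSph hS σ (mem_cl_univ.1 hσ)) hγ (m + 1) (by omega)
  have h2 := congrArg (fun q : ℚ => (q : ℝ)) h1
  push_cast at h2
  rw [← h2]
  have h3 : (cl G Finset.univ).filter (fun F => F.card = d - 2 * (m + 1)) = faces G (d - 2 * m - 2) := by
    ext T
    have e1 : d - 2 * (m + 1) = d - 2 * m - 2 := by omega
    rw [Finset.mem_filter, mem_cl_univ, mem_faces, e1]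
  rw [h3, Finset.mul_sum, ← Finset.sum_neg_distrib]
  refine Finset.sum_le_sum fun F hF => ?_
  rw [lam_lk]
  have h4 := hc F hF
  have h5 : (0 : ℝ) ≤ 4 ^ (m + 1) * ((-1) ^ (m + 1) * (chiW (G.induce (lk G F)) : ℝ) + 2 * c F) :=
    mul_nonneg (by positivity) h4
  linarith

end

open Classical in
/-- Let the flag complex of `G` be a real homology sphere of dimension `d - 1` with gamma-vector `γ`, let
`2 m + 2 ≤ d`, and suppose that, if `2 ≤ m`, the links of the faces with `d - 2 m` vertices are in the class
`AM (2 m)`.
(1) For each choice of slopes of the links of the faces `F` with `d - 2 m - 2` vertices on nonempty finite sets, the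
number `∑ (i choose (m+1)) 2^(d - 2 i) γ_i` (for `d = 2 m + 2` this is `γ_{m+1}`) is at least `- 2 · 4^(m+1)` times the
sum over `F` of the averages of the Betti numbers of the descending links in the degree `m + 1`, and also at least
`- 2 · 4^(m+1)` times the sum of the averages in the degree `m - 1`.
(2) It is at least `- 2 · 4^(m+1)` times the sum over `F` of the average over all sets `A` of vertices of the link of
`F` of the dimension of the `(m+1)`-st reduced real homology of the full subcomplex on `A`. -/
theorem result : ∀ (m d : ℕ) (V : Type) [Fintype V] [LinearOrder V] (G : SimpleGraph V) (γ : ℕ → ℤ),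
    2 * m + 2 ≤ d → HSph d G → IsGam d G γ →
    (2 ≤ m → ∀ T : Finset V, G.IsClique (T : Set V) → T.card = d - 2 * m → AM (2 * m) (G.induce (lk G T))) →
    (∀ (X : Finset V → Type) [∀ F, Fintype (X F)] [∀ F, Nonempty (X F)] (s : ∀ F, Slope (G.induce (lk G F)) (X F)),
      -(2 * 4 ^ (m + 1) * ∑ F ∈ faces G (d - 2 * m - 2), average (s F) (m + 2)) ≤
        ∑ i ∈ Finset.range (d / 2 + 1), (i.choose (m + 1) : ℝ) * 2 ^ (d - 2 * i) * γ i ∧
      -(2 * 4 ^ (m + 1) * ∑ F ∈ faces G (d - 2 * m - 2), average (s F) m) ≤
        ∑ i ∈ Finset.range (d / 2 + 1), (i.choose (m + 1) : ℝ) * 2 ^ (d - 2 * i) * γ i) ∧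
    -(2 * 4 ^ (m + 1) * ∑ F ∈ faces G (d - 2 * m - 2),
        (∑ A : Finset ↥(lk G F), (beta (G.induce (lk G F)) (triv ↥(lk G F)) (A : Set ↥(lk G F)) ∅ (m + 2) : ℝ)) /
          2 ^ Fintype.card ↥(lk G F)) ≤
      ∑ i ∈ Finset.range (d / 2 + 1), (i.choose (m + 1) : ℝ) * 2 ^ (d - 2 * i) * γ i := by
  intro m d V _ _ G γ hd hS hγ hA
  obtain ⟨r, rfl⟩ : ∃ r, d = r + 2 + 2 * m := ⟨d - 2 * m - 2, by omega⟩
  have hP : FaceP m (r + 2) G := FaceP.of (hSph_congr (by omega) hS)
    fun hm T hT hT' => hA hm T hT (by omega)
  have key : ∀ F ∈ faces G (r + 2 + 2 * m - 2 * m - 2), ∀ (X : Type) [Fintype X] [Nonempty X]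
      (s : Slope (G.induce (lk G F)) X),
      0 ≤ (-1 : ℝ) ^ (m + 1) * (chiW (G.induce (lk G F)) : ℝ) + 2 * average s m ∧
      0 ≤ (-1 : ℝ) ^ (m + 1) * (chiW (G.induce (lk G F)) : ℝ) + 2 * average s (m + 2) := by
    intro F hF X _ _ s
    obtain ⟨hF1, hF2⟩ := mem_faces.1 hF
    have hF3 : F.card = r := by omega
    have hS' : HSph (2 * m + 2) (G.induce (lk G F)) := hSph_congr (by omega) (hSph_lk hS F hF1)
    exact (hP.link hF1 hF3).morse_bound hS' s
  refine ⟨fun X _ _ s => ⟨sum_bound hd hS hγ _ fun F hF => (key F hF _ (s F)).2,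
    sum_bound hd hS hγ _ fun F hF => (key F hF _ (s F)).1⟩, sum_bound hd hS hγ _ fun F hF => ?_⟩
  have h1 := (key F hF _ (cubeSlope (G.induce (lk G F)))).2
  have h2 : average (cubeSlope (G.induce (lk G F))) (m + 2) = _ := cube_avg (G := G.induce (lk G F)) (m + 2)
  rw [h2] at h1
  exact h1

end Pool.Agent.Results.MP_19e880_co.MorseGamma
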